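import Pool.Agent.Helper30.U.Defs2
import Pool.Agent.Helper30.SH.BackForth
import Pool.Agent.Helper76.UN.Limit

/-!
# MP_506470_co, module U-A4 : the limit of a strong amalgamation class
-/

namespace SetHom
namespace Un

/-- module U-A4 (the limit; countable homogeneous graph with age `P`). -/
theorem sac_limit {P : ∀ α : Type, SimpleGraph α → Set α → Prop} (h : SAC P) :
    ∃ Y : SimpleGraph ℕ, Homogeneous Y ∧ ∀ (α : Type) [Finite α] (A : SimpleGraph α),
      P α A Set.univ ↔ Nonempty (A ↪g Y) := by
  classical
  have hher : UN.Hered (fun ι Q => P ι Q Set.univ) := by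
    intro ι ι' _ _ Q Q' f hQ
    exact h.comap ι ι' Q Set.univ Q' Set.univ f hQ (fun _ _ => Set.mem_univ _)
      (f.injective.injOn) (fun x _ y _ => f.map_adj_iff.symm)
  have hsap : UN.SAP (fun ι Q => P ι Q Set.univ) := by
    intro ι _ Q S T hS hT
    have key := h.ap _ (UN.ext2 Q S T True) (UN.ext2 Q S T False) Set.univ (some none) none
      (Set.mem_univ _) (Set.mem_univ _) (by simp) (by
        rintro (_ | _ | i) (_ | _ | j) h1 h2
        · simp
        · exact absurd ⟨rfl, rfl⟩ h2
        · exact Iff.rfl
        · exact absurd ⟨rfl, rfl⟩ h1
        · simp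
        · exact Iff.rfl
        · exact Iff.rfl
        · exact Iff.rfl
        · exact Iff.rfl) (by simp) (by simp)
    have h1 : P _ (UN.ext2 Q S T True) (Set.univ \ {some none}) := by
      refine h.comap _ _ _ _ _ _ (fun o => match o with
        | none => none
        | some none => none
        | some (some i) => some i) hT (fun _ _ => Set.mem_univ _) ?_ ?_
      · rintro (_ | _ | i) hi (_ | _ | j) hj e
        · rfl
        · exact absurd rfl hj.2
        · simp at e
        · exact absurd rfl hi.2
        · rfl
        · simp at e
        · simp at e
        · simp at e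
        · simp only [Option.some.injEq] at e
          rw [e]
      · rintro (_ | _ | i) hi (_ | _ | j) hj
        · simp
        · exact absurd rfl hj.2
        · exact Iff.rfl
        · exact absurd rfl hi.2
        · exact absurd rfl hi.2
        · exact absurd rfl hi.2
        · exact Iff.rfl
        · exact absurd rfl hj.2
        · exact Iff.rfl
    have h2 : P _ (UN.ext2 Q S T True) (Set.univ \ {none}) := by
      refine h.comap _ _ _ _ _ _ (fun o => match o with
        | none => none
        | some x => x) hS (fun _ _ => Set.mem_univ _) ?_ ?_
      · rintro (_ | _ | i) hi (_ | _ | j) hj e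
        · rfl
        · exact absurd rfl hi.2
        · exact absurd rfl hi.2
        · exact absurd rfl hj.2
        · rfl
        · simp at e
        · exact absurd rfl hj.2
        · simp at e
        · simp only [Option.some.injEq] at e
          rw [e]
      · rintro (_ | _ | i) hi (_ | _ | j) hj
        · exact absurd rfl hi.2
        · exact absurd rfl hi.2
        · exact absurd rfl hi.2
        · exact absurd rfl hj.2
        · simp
        · exact Iff.rfl
        · exact absurd rfl hj.2
        · exact Iff.rfl
        · exact Iff.rfl
    rcases key h1 h2 with h3 | h3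
    · exact ⟨True, h3⟩
    · exact ⟨False, h3⟩
  obtain ⟨Y, hY, hage⟩ := UN.exists_limit hher hsap h.pt
  exact ⟨Y, homogeneous_of_ope hY, fun α _ A => hage α A⟩

end Un
end SetHom
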