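import Pool.Agent.Helper30.U.Defs2

/-!
# MP_506470_co, modules U-D1, U-D2, U-D4
-/

namespace SetHom
namespace Un

variable {V : Type} {G : SimpleGraph V}

/-- Labelling of a finite set compatible with a property. -/
theorem exists_label {β : Type} [Finite β] (R : β → Prop) (J : Finset V) (p : V → Prop)
    (h1 : {j | R j}.ncard = {x | x ∈ J ∧ p x}.ncard)
    (h2 : {j | ¬ R j}.ncard = {x | x ∈ J ∧ ¬ p x}.ncard) :
    ∃ u : β → V, Function.Injective u ∧ (∀ j, u j ∈ J) ∧ ∀ j, (p (u j) ↔ R j) := by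
  classical
  have f1 : {x | x ∈ J ∧ p x}.Finite := J.finite_toSet.subset (fun x hx => hx.1)
  have f2 : {x | x ∈ J ∧ ¬ p x}.Finite := J.finite_toSet.subset (fun x hx => hx.1)
  have _ := f1.to_subtype
  have _ := f2.to_subtype
  obtain ⟨e1⟩ : Nonempty ({j | R j} ≃ {x | x ∈ J ∧ p x}) := by
    have h1' : Nat.card {j | R j} = Nat.card {x | x ∈ J ∧ p x} := h1
    exact (Finite.card_eq).1 h1'
  obtain ⟨e2⟩ : Nonempty ({j | ¬ R j} ≃ {x | x ∈ J ∧ ¬ p x}) := by
    have h2' : Nat.card {j | ¬ R j} = Nat.card {x | x ∈ J ∧ ¬ p x} := h2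
    exact (Finite.card_eq).1 h2'
  let u : β → V := fun j => if h : R j then (e1 ⟨j, h⟩).1 else (e2 ⟨j, h⟩).1
  have u1 : ∀ j (h : R j), u j = (e1 ⟨j, h⟩).1 := fun j h => dif_pos h
  have u2 : ∀ j (h : ¬ R j), u j = (e2 ⟨j, h⟩).1 := fun j h => dif_neg h
  refine ⟨u, ?_, ?_, ?_⟩
  · intro i j e
    by_cases hi : R i <;> by_cases hj : R j
    · rw [u1 i hi, u1 j hj] at e
      have := e1.injective (Subtype.ext e)
      exact congrArg Subtype.val this
    · rw [u1 i hi, u2 j hj] at e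
      exact absurd (e ▸ (e1 ⟨i, hi⟩).2.2) (e2 ⟨j, hj⟩).2.2
    · rw [u2 i hi, u1 j hj] at e
      exact absurd (e.symm ▸ (e1 ⟨j, hj⟩).2.2) (e2 ⟨i, hi⟩).2.2
    · rw [u2 i hi, u2 j hj] at e
      have := e2.injective (Subtype.ext e)
      exact congrArg Subtype.val this
  · intro j
    by_cases hj : R j
    · rw [u1 j hj]
      exact (e1 ⟨j, hj⟩).2.1
    · rw [u2 j hj]
      exact (e2 ⟨j, hj⟩).2.1
  · intro j
    by_cases hj : R j
    · rw [u1 j hj]
      exact iff_of_true (e1 ⟨j, hj⟩).2.2 hj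
    · rw [u2 j hj]
      exact iff_of_false (e2 ⟨j, hj⟩).2.2 hj

/-- The embedding of the one-point graph with an independent set. -/
theorem inW_one {r : ℕ} {β : Type} {R : Unit → β → Prop} {W J : Finset V} {v : V}
    (hW : Clq G W) (hWr : W.card = r) (hJ : Indep G J) (hvJ : v ∉ J)
    (hf : ∀ w ∈ W, Full G w J ∧ G.Adj w v) {u : β → V} (hu : Function.Injective u)
    (huJ : ∀ j, u j ∈ J) (hR : ∀ j, (G.Adj v (u j) ↔ R () j)) :
    InW G r (AJ (⊥ : SimpleGraph Unit) R) (UJ β Set.univ) := by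
  refine ⟨W, Sum.elim (fun _ => v) u, hW, hWr, ?_, ?_, ?_⟩
  · rintro (x | j) _ w hw
    · exact (hf w hw).2.symm
    · exact ((hf w hw).1 _ (huJ j)).symm
  · rintro (x | j) _ (y | k) _ e
    · rfl
    · exfalso
      have e1 : v = u k := e
      exact hvJ (e1 ▸ huJ k)
    · exfalso
      have e1 : u j = v := e
      exact hvJ (e1 ▸ huJ j)
    · rw [hu (show u j = u k from e)]
  · rintro (x | j) _ (y | k) _
    · exact iff_of_false (fun e => G.irrefl e) (fun e => e)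
    · exact hR k
    · exact (G.adj_comm _ _).trans (hR j)
    · exact iff_of_false (hJ _ (huJ j) _ (huJ k)) (fun e => e)

/-- module U-D1: `K_1` is in `PS` for `S = {0}`. -/
theorem ps1_zero (h : ShI G) (hi : ∀ n : ℕ, ∃ A : Finset V, Indep G A ∧ A.card = n) :
    PS G {0} (⊥ : SimpleGraph Unit) Set.univ := by
  classical
  intro β _ R r hr
  have hr0 : r = 0 := hr
  subst hr0
  have _ := Fintype.ofFinite β
  obtain ⟨A, hA, hAc⟩ := hi (Fintype.card β)
  obtain ⟨e⟩ : Nonempty (β ≃ A) := Fintype.card_eq.1 (by simp [hAc])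
  obtain ⟨v, hv, hvA⟩ := h A ((Finset.univ.filter (fun j => R () j)).image (fun j => (e j).1)) hA
    (by
      intro x hx
      obtain ⟨j, -, rfl⟩ := Finset.mem_image.1 hx
      exact (e j).2)
  refine inW_one (W := ∅) (J := A) (v := v) (u := fun j => (e j).1) ?_ rfl hA hv ?_ ?_ ?_ ?_
  · intro x hx
    simp at hx
  · intro w hw
    simp at hw
  · intro i j hij
    exact e.injective (Subtype.ext hij)
  · intro j
    exact (e j).2
  · intro j
    rw [hvA _ (e j).2, Finset.mem_image]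
    constructor
    · rintro ⟨k, hk, e1⟩
      rw [← e.injective (Subtype.ext e1)]
      exact (Finset.mem_filter.1 hk).2
    · intro hj
      exact ⟨j, Finset.mem_filter.2 ⟨Finset.mem_univ _, hj⟩, rfl⟩

/-- module U-D2: `K_1` is in `PS` for all `r` (from REL-ALPHA of helper25). -/
theorem ps1_univ (hra : ∀ r s t : ℕ, ∃ (W J : Finset V) (v : V), Clq G W ∧ W.card = r ∧
      Indep G J ∧ v ∉ J ∧ (∀ w ∈ W, Full G w J ∧ G.Adj w v) ∧
      {j | j ∈ J ∧ G.Adj v j}.ncard = s ∧ {j | j ∈ J ∧ ¬ G.Adj v j}.ncard = t) :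
    PS G Set.univ (⊥ : SimpleGraph Unit) Set.univ := by
  classical
  intro β _ R r _
  obtain ⟨W, J, v, h1, h2, h3, h4, h5, h6, h7⟩ :=
    hra r {j | R () j}.ncard {j | ¬ R () j}.ncard
  obtain ⟨u, hu1, hu2, hu3⟩ := exists_label (R ()) J (fun x => G.Adj v x) h6.symm h7.symm
  exact inW_one h1 h2 h3 h4 h5 hu1 hu2 hu3

/-- Complements, for `r = 0`. -/
theorem inW_compl {α : Type} {K : SimpleGraph α} {U : Set α} (h : InW G 0 Kᶜ U) :
    InW Gᶜ 0 K U := by
  obtain ⟨W, f, hf⟩ := h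
  have hW : W = ∅ := Finset.card_eq_zero.1 hf.card
  refine ⟨W, f, ?_, hf.card, ?_, hf.inj, ?_⟩
  · rw [hW]
    intro x hx
    simp at hx
  · rw [hW]
    intro x _ w hw
    simp at hw
  · intro x hx y hy
    have h1 := hf.adj x hx y hy
    rw [SimpleGraph.compl_adj] at h1 ⊢
    constructor
    · rintro ⟨h2, h3⟩
      by_contra h4
      exact h3 (h1.2 ⟨fun e => h2 (by rw [e]), h4⟩)
    · intro h2
      exact ⟨fun e => h2.ne (hf.inj hx hy e), fun h3 => (h1.1 h3).2 h2⟩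

/-- module U-D4: complement of a split graph. -/
theorem cliqueIn_compl (h : CliqueIn G {0}) : CliqueIn Gᶜ {0} := by
  classical
  intro α _ H T hT β _ R r hr
  have hr0 : r = 0 := hr
  subst hr0
  apply inW_compl
  refine PS.inW (S := {0}) (T := {x | ∃ j, x = Sum.inr j}) (h _ _ _ ?_) ?_ rfl
  · rintro _ ⟨j, rfl⟩ _ ⟨k, rfl⟩ hjk
    rw [SimpleGraph.compl_adj]
    exact ⟨hjk, AJ_rr _ _⟩
  · rintro (a | j) hx hxT (b | k) hy hyT
    · rw [mem_UJ_inl] at hx hy
      rw [SimpleGraph.compl_adj]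
      rintro ⟨h1, h2⟩
      exact h2 (hT a hx b hy (fun e => h1 (by rw [e])))
    · exact absurd ⟨k, rfl⟩ hyT
    · exact absurd ⟨j, rfl⟩ hxT
    · exact absurd ⟨j, rfl⟩ hxT

end Un
end SetHom
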