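import Pool.Agent.Helper59.U.H4
import Pool.Agent.Helper30.U.Defs2

/-!
# MP_506470_co : the honesty theorem in the form used by the modules
-/

namespace SetHom
namespace Un

variable {V : Type} {G : SimpleGraph V}

theorem wg_of_ubase (hB : UBase G) : WG G :=
  fun _ _ hr _ _ _ _ _ h1 h2 h3 h4 h5 => wg hB hr h1 h2 h3 h4 h5

end Un
end SetHom
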