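import Pool.Agent.Helper76.U.H1

/-!
# MP_506470_co, module U-H3 : Lemma H
-/

namespace SetHom
namespace Un

variable {V : Type} {G : SimpleGraph V}

/-- Conjugacy of two copies of a rigid configuration. -/
theorem conj_gen (hs : SetHomogeneous G) {ι τ β : Type} [Finite ι] [Finite τ] [Finite β]
    (f f' : ι ⊕ (τ ⊕ β) → V) (hf : Function.Injective f) (hf' : Function.Injective f')
    (hadj : ∀ x y, G.Adj (f x) (f y) ↔ G.Adj (f' x) (f' y))
    (hι : ∀ i i', i ≠ i' → G.Adj (f' (Sum.inl i)) (f' (Sum.inl i')))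
    (hιβ : ∀ i j, G.Adj (f' (Sum.inl i)) (f' (Sum.inr (Sum.inr j))))
    (hβ : ∀ j j', ¬ G.Adj (f' (Sum.inr (Sum.inr j))) (f' (Sum.inr (Sum.inr j'))))
    (hstd : Std (Nat.card ι)
      (fun t j => G.Adj (f' (Sum.inr (Sum.inl t))) (f' (Sum.inr (Sum.inr j))))) :
    ∃ (φ : G ≃g G) (π : Equiv.Perm β), (∀ i, ∃ i', φ (f (Sum.inl i)) = f' (Sum.inl i')) ∧
      (∀ t, φ (f (Sum.inr (Sum.inl t))) = f' (Sum.inr (Sum.inl t))) ∧
      ∀ j, φ (f (Sum.inr (Sum.inr j))) = f' (Sum.inr (Sum.inr (π j))) := by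
  classical
  obtain ⟨φ, σ, h1, h2⟩ := sh_emb hs f f' hf hf' hadj
  obtain ⟨h3, h4, h5⟩ := rigid (G.comap f') hι hιβ hβ hstd σ h2
  choose π hπ using h5
  have hinj : Function.Injective π := by
    intro j j' h
    have : σ (Sum.inr (Sum.inr j)) = σ (Sum.inr (Sum.inr j')) := by rw [hπ, hπ, h]
    simpa using σ.injective this
  refine ⟨φ, Equiv.ofBijective π (Finite.injective_iff_bijective.1 hinj), ?_, ?_, ?_⟩
  · intro i
    obtain ⟨i', hi'⟩ := h3 i
    exact ⟨i', by rw [h1, hi']⟩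
  · intro t
    rw [h1, h4]
  · intro j
    rw [h1, hπ]
    rfl

/-- Two embeddings of a standard graph are conjugate up to a permutation of the independent
part. -/
theorem emb_conj (hs : SetHomogeneous G) {r : ℕ} {τ β : Type} [Finite τ] [Finite β]
    {A : SimpleGraph τ} {R : τ → β → Prop} (hstd : Std r R) {W₁ W₂ : Finset V}
    {f₁ f₂ : τ ⊕ β → V} (h₁ : EmbW G r (AJ A R) Set.univ W₁ f₁)
    (h₂ : EmbW G r (AJ A R) Set.univ W₂ f₂) :
    ∃ (φ : G ≃g G) (π : Equiv.Perm β), φ '' (W₁ : Set V) = W₂ ∧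
      (∀ t, φ (f₁ (Sum.inl t)) = f₂ (Sum.inl t)) ∧
      (∀ j, φ (f₁ (Sum.inr j)) = f₂ (Sum.inr (π j))) ∧ ∀ t j, (R t (π j) ↔ R t j) := by
  classical
  obtain ⟨w₁, hw₁, hW₁⟩ := exists_enum W₁ h₁.card
  obtain ⟨w₂, hw₂, hW₂⟩ := exists_enum W₂ h₂.card
  have hinj : ∀ {W : Finset V} {f : τ ⊕ β → V} {w : Fin r → V},
      EmbW G r (AJ A R) Set.univ W f → Function.Injective w → (∀ x, x ∈ W ↔ ∃ i, w i = x) →
      Function.Injective (Sum.elim w f) := by
    intro W f w h hw hW
    rintro (i | x) (j | y) e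
    · rw [hw e]
    · exfalso
      have h3 : G.Adj (f y) (w i) := h.full y (Set.mem_univ _) _ ((hW _).2 ⟨i, rfl⟩)
      have h4 : w i = f y := e
      rw [h4] at h3
      exact G.irrefl h3
    · exfalso
      have h3 : G.Adj (f x) (w j) := h.full x (Set.mem_univ _) _ ((hW _).2 ⟨j, rfl⟩)
      have h4 : f x = w j := e
      rw [h4] at h3
      exact G.irrefl h3
    · rw [h.inj (Set.mem_univ _) (Set.mem_univ _) e]
  have hww : ∀ {W : Finset V} {f : τ ⊕ β → V} {w : Fin r → V},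
      EmbW G r (AJ A R) Set.univ W f → Function.Injective w → (∀ x, x ∈ W ↔ ∃ i, w i = x) →
      ∀ i j, G.Adj (w i) (w j) ↔ i ≠ j := by
    intro W f w h hw hW i j
    constructor
    · rintro h3 rfl
      exact G.irrefl h3
    · intro hij
      exact h.clq _ ((hW _).2 ⟨i, rfl⟩) _ ((hW _).2 ⟨j, rfl⟩) (fun e => hij (hw e))
  have hwf : ∀ {W : Finset V} {f : τ ⊕ β → V} {w : Fin r → V},
      EmbW G r (AJ A R) Set.univ W f → (∀ x, x ∈ W ↔ ∃ i, w i = x) →
      ∀ i x, G.Adj (w i) (f x) := by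
    intro W f w h hW i x
    exact (h.full x (Set.mem_univ _) _ ((hW _).2 ⟨i, rfl⟩)).symm
  obtain ⟨φ, π, h3, h4, h5⟩ := conj_gen hs (Sum.elim w₁ f₁) (Sum.elim w₂ f₂)
    (hinj h₁ hw₁ hW₁) (hinj h₂ hw₂ hW₂) (by
      rintro (i | x) (j | y)
      · exact (hww h₁ hw₁ hW₁ i j).trans (hww h₂ hw₂ hW₂ i j).symm
      · exact iff_of_true (hwf h₁ hW₁ i y) (hwf h₂ hW₂ i y)
      · exact iff_of_true (hwf h₁ hW₁ j x).symm (hwf h₂ hW₂ j x).symm
      · exact (h₁.adj x (Set.mem_univ _) y (Set.mem_univ _)).trans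
          (h₂.adj x (Set.mem_univ _) y (Set.mem_univ _)).symm)
    (fun i j hij => (hww h₂ hw₂ hW₂ i j).2 hij) (fun i j => hwf h₂ hW₂ i _)
    (fun j j' e => AJ_rr _ _ ((h₂.adj _ (Set.mem_univ _) _ (Set.mem_univ _)).1 e)) (by
      have : (fun t j => G.Adj (Sum.elim w₂ f₂ (Sum.inr (Sum.inl t)))
          (Sum.elim w₂ f₂ (Sum.inr (Sum.inr j)))) = R := by
        funext t j
        exact propext (h₂.adj _ (Set.mem_univ _) _ (Set.mem_univ _))
      rw [this, Nat.card_fin]
      exact hstd)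
  refine ⟨φ, π, ?_, h4, h5, ?_⟩
  · have h6 : W₁.map φ.toEquiv.toEmbedding ⊆ W₂ := by
      intro x hx
      obtain ⟨y, hy, rfl⟩ := Finset.mem_map.1 hx
      obtain ⟨i, rfl⟩ := (hW₁ y).1 hy
      obtain ⟨i', hi'⟩ := h3 i
      exact (hW₂ _).2 ⟨i', hi'.symm⟩
    have h7 : W₁.map φ.toEquiv.toEmbedding = W₂ :=
      Finset.eq_of_subset_of_card_le h6 (by rw [Finset.card_map, h₁.card, h₂.card])
    ext x
    constructor
    · rintro ⟨y, hy, rfl⟩
      exact h6 (Finset.mem_map_of_mem _ hy)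
    · intro hx
      rw [Finset.mem_coe, ← h7] at hx
      obtain ⟨y, hy, rfl⟩ := Finset.mem_map.1 hx
      exact ⟨y, hy, rfl⟩
  · intro t j
    have e1 := h₁.adj (Sum.inl t) (Set.mem_univ _) (Sum.inr j) (Set.mem_univ _)
    have e2 := h₂.adj (Sum.inl t) (Set.mem_univ _) (Sum.inr (π j)) (Set.mem_univ _)
    rw [AJ_lr] at e1 e2
    rw [← e1, ← e2]
    have e3 := h4 t
    have e4 := h5 j
    simp only [Sum.elim_inr] at e3 e4
    rw [← e3, ← e4]
    exact φ.map_adj_iff

/-- The relation on a main part together with private pins and one null pin. -/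
def pinR {τ B : Type} (R : τ → B → Prop) (p : τ → ℕ) :
    τ → B ⊕ ((Σ t : τ, Fin (p t)) ⊕ Unit) → Prop := fun t b =>
  match b with
  | Sum.inl b => R t b
  | Sum.inr (Sum.inl s) => s.1 = t
  | Sum.inr (Sum.inr _) => False

theorem std_pins {τ B : Type} [Finite τ] [Finite B] [Nonempty τ] (R : τ → B → Prop) (r : ℕ) :
    ∃ p : τ → ℕ, (∀ t, 0 < p t) ∧ Std r (pinR R p) := by
  classical
  have _ := Fintype.ofFinite τ
  have _ := Fintype.ofFinite B
  let e := Fintype.equivFin τ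
  let N : ℕ := Nat.card B + r + Nat.card τ + 1
  let p : τ → ℕ := fun t => N * ((e t : ℕ) + 1)
  have hN : 0 < N := Nat.succ_pos _
  have hpN : ∀ t, N ≤ p t := fun t => Nat.le_mul_of_pos_right _ (Nat.succ_pos _)
  -- the degrees
  have hlo : ∀ t, p t ≤ {b | pinR R p t b}.ncard := by
    intro t
    have h1 : (Set.range (fun i : Fin (p t) => (Sum.inr (Sum.inl ⟨t, i⟩) :
        B ⊕ ((Σ t : τ, Fin (p t)) ⊕ Unit)))).ncard = p t := by
      rw [← Set.image_univ, Set.ncard_image_of_injective]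
      · simp
      · intro i j hij
        simpa using hij
    rw [← h1]
    apply Set.ncard_le_ncard _ (Set.toFinite _)
    rintro _ ⟨i, rfl⟩
    exact rfl
  have hup : ∀ t, {b | pinR R p t b}.ncard ≤ p t + Nat.card B := by
    intro t
    have h1 : (Set.range (fun i : Fin (p t) => (Sum.inr (Sum.inl ⟨t, i⟩) :
        B ⊕ ((Σ t : τ, Fin (p t)) ⊕ Unit)))).ncard = p t := by
      rw [← Set.image_univ, Set.ncard_image_of_injective]
      · simp
      · intro i j hij
        simpa using hij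
    have h2 : (Set.range (Sum.inl : B → B ⊕ ((Σ t : τ, Fin (p t)) ⊕ Unit))).ncard = Nat.card B := by
      rw [← Set.image_univ, Set.ncard_image_of_injective _ Sum.inl_injective, Set.ncard_univ]
    refine le_trans (Set.ncard_le_ncard (t := (Set.range (fun i : Fin (p t) =>
      (Sum.inr (Sum.inl ⟨t, i⟩) : B ⊕ ((Σ t : τ, Fin (p t)) ⊕ Unit)))) ∪
      (Set.range (Sum.inl : B → B ⊕ ((Σ t : τ, Fin (p t)) ⊕ Unit)))) ?_ (Set.toFinite _)) ?_
    · rintro (b | ⟨⟨s, i⟩ | u⟩) hb
      · right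
        exact ⟨b, rfl⟩
      · left
        have : s = t := hb
        subst this
        exact ⟨i, rfl⟩
      · exact absurd hb (fun h => h)
    · refine le_trans (Set.ncard_union_le _ _) ?_
      rw [h1, h2]
  have hlt : ∀ t, {b | pinR R p t b}.ncard < Nat.card (B ⊕ ((Σ t : τ, Fin (p t)) ⊕ Unit)) := by
    intro t
    rw [← Set.ncard_univ]
    apply Set.ncard_lt_ncard _ (Set.toFinite _)
    rw [Set.ssubset_univ_iff]
    intro h
    have : (Sum.inr (Sum.inr ()) : B ⊕ ((Σ t : τ, Fin (p t)) ⊕ Unit)) ∈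
        {b | pinR R p t b} := by
      rw [h]
      exact Set.mem_univ _
    exact this
  have hbig : ∀ t, r + Nat.card τ < {b | pinR R p t b}.ncard := by
    intro t
    have h1 := hlo t
    have h2 := hpN t
    have h3 : r + Nat.card τ < N := by
      show r + Nat.card τ < Nat.card B + r + Nat.card τ + 1
      omega
    omega
  refine ⟨p, fun t => lt_of_lt_of_le hN (hpN t), ?_, hbig, hlt, ?_⟩
  · obtain ⟨t⟩ : Nonempty τ := inferInstance
    exact lt_trans (hbig t) (hlt t)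
  · intro t s hts
    have hts' : {b | pinR R p t b}.ncard = {b | pinR R p s b}.ncard := hts
    have hdiv : ∀ t, {b | pinR R p t b}.ncard / N = (e t : ℕ) + 1 := by
      intro t
      rw [Nat.div_eq_iff hN]
      have h1 := hlo t
      have h2 := hup t
      have h3 : p t = N * ((e t : ℕ) + 1) := rfl
      have h4 : Nat.card B ≤ N - 1 := by
        show Nat.card B ≤ Nat.card B + r + Nat.card τ + 1 - 1
        omega
      rw [mul_comm]
      constructor
      · omega
      · omega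
    have h5 := hdiv t
    rw [hts', hdiv s] at h5
    have h6 : (e s : ℕ) = (e t : ℕ) := by omega
    exact (e.injective (Fin.ext h6)).symm

theorem exists_big (a b : ℕ) : ∃ m, a * (m + b) < 2 ^ m := by
  let L := 3 * a + b + 1
  refine ⟨2 * L, ?_⟩
  have h1 : L < 2 ^ L := Nat.lt_two_pow_self
  have h2 : 2 ^ (2 * L) = 2 ^ L * 2 ^ L := by
    rw [two_mul, pow_add]
  rw [h2]
  have h3 : L * L < 2 ^ L * 2 ^ L := Nat.mul_lt_mul'' h1 h1
  have h4 : a * (2 * L + b) ≤ L * L := by
    have h5 : 2 * L + b ≤ 3 * L := by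
      show 2 * (3 * a + b + 1) + b ≤ 3 * (3 * a + b + 1)
      omega
    calc a * (2 * L + b) ≤ a * (3 * L) := Nat.mul_le_mul_left _ h5
      _ = (3 * a) * L := by ring
      _ ≤ L * L := Nat.mul_le_mul_right _ (by
        show 3 * a ≤ 3 * a + b + 1
        omega)
  omega

/-- The permutation `π` of the independent part is induced over the copy `W`, `f`. -/
def Real (G : SimpleGraph V) {τ β : Type} (W : Finset V) (f : τ ⊕ β → V)
    (π : Equiv.Perm β) : Prop :=
  ∃ ψ : G ≃g G, ψ '' (W : Set V) = W ∧ (∀ t, ψ (f (Sum.inl t)) = f (Sum.inl t)) ∧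
    ∀ j, ψ (f (Sum.inr j)) = f (Sum.inr (π j))

/-- Transport of the non-induced permutations. -/
theorem not_real (hs : SetHomogeneous G) {r : ℕ} {τ β : Type} [Finite τ] [Finite β]
    {A : SimpleGraph τ} {R : τ → β → Prop} (hstd : Std r R) {W₁ W₂ : Finset V}
    {f₁ f₂ : τ ⊕ β → V} (h₁ : EmbW G r (AJ A R) Set.univ W₁ f₁)
    (h₂ : EmbW G r (AJ A R) Set.univ W₂ f₂) {π : Equiv.Perm β} (hπ : ∀ t j, R t (π j) ↔ R t j)
    (hn : ¬ Real G W₁ f₁ π) :
    ∃ π' : Equiv.Perm β, (∀ t j, R t (π' j) ↔ R t j) ∧ ¬ Real G W₂ f₂ π' := by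
  obtain ⟨φ, ρ, h3, h4, h5, h6⟩ := emb_conj hs hstd h₁ h₂
  refine ⟨(ρ.symm.trans π).trans ρ, ?_, ?_⟩
  · intro t j
    show R t (ρ (π (ρ.symm j))) ↔ R t j
    rw [h6, hπ]
    have := h6 t (ρ.symm j)
    rw [ρ.apply_symm_apply] at this
    exact this.symm
  · rintro ⟨ψ, h7, h8, h9⟩
    apply hn
    refine ⟨φ.trans (ψ.trans φ.symm), ?_, ?_, ?_⟩
    · have e1 : ∀ x : V, (φ.trans (ψ.trans φ.symm)) x = φ.symm (ψ (φ x)) := fun _ => rfl
      apply image_eq_of_maps
      intro x hx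
      rw [e1]
      have e2 : φ x ∈ φ '' (W₁ : Set V) := ⟨x, hx, rfl⟩
      rw [h3] at e2
      have e3 : ψ (φ x) ∈ ψ '' (W₂ : Set V) := ⟨_, e2, rfl⟩
      rw [h7, ← h3] at e3
      obtain ⟨y, hy, e4⟩ := e3
      rw [← e4, RelIso.symm_apply_apply]
      exact hy
    · intro t
      show φ.symm (ψ (φ (f₁ (Sum.inl t)))) = _
      rw [h4, h8, ← h4, RelIso.symm_apply_apply]
    · intro j
      show φ.symm (ψ (φ (f₁ (Sum.inr j)))) = _
      rw [h5, h9]
      have e5 : ((ρ.symm.trans π).trans ρ) (ρ j) = ρ (π j) := by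
        show ρ (π (ρ.symm (ρ j))) = ρ (π j)
        rw [ρ.symm_apply_apply]
      rw [e5, ← h5, RelIso.symm_apply_apply]

/-- Lemma H. -/
theorem uniq_std (hB : UBase G) {S : Set ℕ} {r : ℕ} (hr : r ∈ S) {τ β : Type} [Finite τ]
    [Finite β] {A : SimpleGraph τ} {R : τ → β → Prop} (hP : PS G S A Set.univ)
    (hstd : Std r R) : Uniq G r (AJ A R) Set.univ := by
  classical
  -- it is enough that all permutations preserving `R` are induced
  suffices key : ∀ (W : Finset V) (f : τ ⊕ β → V), EmbW G r (AJ A R) Set.univ W f →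
      ∀ π : Equiv.Perm β, (∀ t j, R t (π j) ↔ R t j) → Real G W f π by
    intro W₁ f₁ W₂ f₂ h₁ h₂
    obtain ⟨φ, π, h3, h4, h5, h6⟩ := emb_conj hB.sh hstd h₁ h₂
    obtain ⟨ψ, h7, h8, h9⟩ := key W₂ f₂ h₂ π.symm (by
      intro t j
      have := h6 t (π.symm j)
      rw [π.apply_symm_apply] at this
      exact this.symm)
    refine ⟨φ.trans ψ, ?_, ?_⟩
    · have e : (φ.trans ψ) '' (W₁ : Set V) = ψ '' (φ '' (W₁ : Set V)) := by
        rw [Set.image_image]
        rfl
      rw [e, h3, h7]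
    · rintro (t | j) _
      · show ψ (φ (f₁ (Sum.inl t))) = _
        rw [h4, h8]
      · show ψ (φ (f₁ (Sum.inr j))) = _
        rw [h5, h9, π.symm_apply_apply]
  intro W f hWf π hπ
  by_contra hn
  have hT : ∀ (W' : Finset V) (f' : τ ⊕ β → V), EmbW G r (AJ A R) Set.univ W' f' →
      ∃ π' : Equiv.Perm β, (∀ t j, R t (π' j) ↔ R t j) ∧ ¬ Real G W' f' π' :=
    fun W' f' h' => not_real hB.sh hstd hWf h' hπ hn
  have _ := Fintype.ofFinite β
  have _ := Fintype.ofFinite τ
  obtain ⟨m, hm⟩ := exists_big (r + Nat.card τ) (Nat.card β + 1)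
  -- the relation between the labelled points and the copies of `β`
  let R0 : τ ⊕ (Fin m ⊕ (β ⊕ Unit)) → (Fin m → Bool) × β → Prop := fun t' b => match t' with
    | Sum.inl t => R t b.2
    | Sum.inr (Sum.inl s) => b.1 s = true
    | Sum.inr (Sum.inr (Sum.inl j)) => b.2 = j
    | Sum.inr (Sum.inr (Sum.inr _)) => True
  have _ : Nonempty (τ ⊕ (Fin m ⊕ (β ⊕ Unit))) := ⟨Sum.inr (Sum.inr (Sum.inr ()))⟩
  obtain ⟨p, hp, hstd'⟩ := std_pins R0 r
  -- one copy of the large graph
  obtain ⟨W1, F, hF'⟩ := hP (((Fin m → Bool) × β) ⊕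
    ((Σ t : τ ⊕ (Fin m ⊕ (β ⊕ Unit)), Fin (p t)) ⊕ Unit))
    (fun t b => pinR R0 p (Sum.inl t) b) r hr
  have hF := hF'.mono (U' := Set.univ) (fun x _ a _ => Set.mem_univ a)
  have hFind : ∀ b b', ¬ G.Adj (F (Sum.inr b)) (F (Sum.inr b')) := fun b b' e =>
    AJ_rr _ _ ((hF.adj _ (Set.mem_univ _) _ (Set.mem_univ _)).1 e)
  have hFinj : Function.Injective (fun b => F (Sum.inr b)) := by
    intro b b' e
    have := hF.inj (Set.mem_univ _) (Set.mem_univ _) e
    simpa using this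
  -- the additional vertices
  have hv : ∀ x : Fin m ⊕ (β ⊕ Unit), ∃ v, ∀ b, (G.Adj v (F (Sum.inr b)) ↔
      pinR R0 p (Sum.inr x) b) := by
    intro x
    have _ := Fintype.ofFinite (((Fin m → Bool) × β) ⊕
      ((Σ t : τ ⊕ (Fin m ⊕ (β ⊕ Unit)), Fin (p t)) ⊕ Unit))
    obtain ⟨v, -, hv⟩ := hB.shi (Finset.univ.image (fun b => F (Sum.inr b)))
      ((Finset.univ.filter (fun b => pinR R0 p (Sum.inr x) b)).image (fun b => F (Sum.inr b)))
      (by
        intro y hy z hz
        obtain ⟨b, -, rfl⟩ := Finset.mem_image.1 hy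
        obtain ⟨b', -, rfl⟩ := Finset.mem_image.1 hz
        exact hFind b b')
      (Finset.image_subset_image (Finset.filter_subset _ _))
    refine ⟨v, ?_⟩
    intro b
    rw [hv _ (Finset.mem_image_of_mem _ (Finset.mem_univ b)), Finset.mem_image]
    constructor
    · rintro ⟨b', hb', e⟩
      rw [← hFinj e]
      exact (Finset.mem_filter.1 hb').2
    · intro h
      exact ⟨b, Finset.mem_filter.2 ⟨Finset.mem_univ _, h⟩, rfl⟩
  choose v hv using hv
  -- the small copies
  have hfi : ∀ i : Fin m → Bool, EmbW G r (AJ A R) Set.univ W1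
      (fun x => F (Sum.map id (fun j => Sum.inl (i, j)) x)) := by
    intro i
    refine hF.comap _ (fun _ _ => Set.mem_univ _) ?_ ?_
    · rintro (t | j) _ (t' | j') _ e
      · simpa using e
      · simp at e
      · simp at e
      · simpa using e
    · rintro (t | j) _ (t' | j') _
      · exact Iff.rfl
      · exact Iff.rfl
      · exact Iff.rfl
      · exact Iff.rfl
  choose P hP1 hP2 using fun i => hT W1 _ (hfi i)
  -- the automorphisms
  let q : Set (Fin m → Bool) → (Fin m → Bool) → Equiv.Perm β := fun I i =>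
    if i ∈ I then P i else 1
  let Pi : Set (Fin m → Bool) → Equiv.Perm (((Fin m → Bool) × β) ⊕
    ((Σ t : τ ⊕ (Fin m ⊕ (β ⊕ Unit)), Fin (p t)) ⊕ Unit)) := fun I =>
    Equiv.sumCongr (Equiv.prodShear (Equiv.refl _) (q I)) (Equiv.refl _)
  have hPil : ∀ I i j, Pi I (Sum.inl (i, j)) = Sum.inl (i, q I i j) := fun _ _ _ => rfl
  have hPir : ∀ I s, Pi I (Sum.inr s) = Sum.inr s := fun _ _ => rfl
  have hqR : ∀ I i t j, (R t (q I i j) ↔ R t j) := by
    intro I i t j
    by_cases hi : i ∈ I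
    · have : q I i = P i := if_pos hi
      rw [this]
      exact hP1 i t j
    · have : q I i = 1 := if_neg hi
      rw [this]
      rfl
  have hPiR : ∀ I t b, (pinR R0 p (Sum.inl t) (Pi I b) ↔ pinR R0 p (Sum.inl t) b) := by
    rintro I t (⟨i, j⟩ | s)
    · rw [hPil]
      exact hqR I i t j
    · rw [hPir]
  choose g hg using fun I => fs_fam hB.fs (fun b => F (Sum.inr b)) hFinj hFind (Pi I)
  obtain ⟨w, hw, hWw⟩ := exists_enum W1 hF.card
  -- the labelled points over which we work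
  let pt : Fin r ⊕ τ → V := Sum.elim w (fun t => F (Sum.inl t))
  let colY : Fin r ⊕ τ → (((Fin m → Bool) × β) ⊕
    ((Σ t : τ ⊕ (Fin m ⊕ (β ⊕ Unit)), Fin (p t)) ⊕ Unit)) → Prop := fun y b => match y with
    | Sum.inl _ => True
    | Sum.inr t => pinR R0 p (Sum.inl t) b
  have hwF : ∀ i x, G.Adj (w i) (F x) := fun i x =>
    (hF.full x (Set.mem_univ _) _ ((hWw _).2 ⟨i, rfl⟩)).symm
  have hptinj : Function.Injective pt := by
    rintro (i | t) (i' | t') e
    · rw [hw (show w i = w i' from e)]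
    · exfalso
      have h1 : w i = F (Sum.inl t') := e
      have h2 := hwF i (Sum.inl t')
      rw [h1] at h2
      exact G.irrefl h2
    · exfalso
      have h1 : F (Sum.inl t) = w i' := e
      have h2 := hwF i' (Sum.inl t)
      rw [h1] at h2
      exact G.irrefl h2
    · have h1 := hF.inj (Set.mem_univ _) (Set.mem_univ _) (show F (Sum.inl t) = F (Sum.inl t') from e)
      rw [Sum.inl.inj h1]
  have hpt : ∀ y b, (G.Adj (pt y) (F (Sum.inr b)) ↔ colY y b) := by
    rintro (i | t) b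
    · exact iff_of_true (hwF i _) trivial
    · exact hF.adj _ (Set.mem_univ _) _ (Set.mem_univ _)
  have hgY : ∀ I y b, (G.Adj (g I (pt y)) (F (Sum.inr b)) ↔ colY y b) := by
    intro I y b
    have h1 := hg I ((Pi I).symm b)
    rw [(Pi I).apply_symm_apply] at h1
    have h2 : F (Sum.inr b) = g I (F (Sum.inr ((Pi I).symm b))) := h1.symm
    rw [h2, (g I).map_adj_iff, hpt]
    rcases y with i | t
    · exact Iff.rfl
    · have h3 := hPiR I t ((Pi I).symm b)
      rw [(Pi I).apply_symm_apply] at h3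
      exact h3.symm
  -- the patterns
  obtain ⟨I, I', hII, hpat⟩ := Fintype.exists_ne_map_eq_of_card_lt
    (fun (I : Set (Fin m → Bool)) (x : Fin m ⊕ (β ⊕ Unit)) (y : Fin r ⊕ τ) =>
      G.Adj (v x) (g I (pt y))) (by
    have e1 : Fintype.card (Set (Fin m → Bool)) = 2 ^ 2 ^ m := by
      rw [Fintype.card_set]
      simp
    have e2 : Fintype.card (Fin m ⊕ (β ⊕ Unit) → Fin r ⊕ τ → Prop) =
        2 ^ ((r + Nat.card τ) * (m + (Nat.card β + 1))) := by
      rw [Fintype.card_fun, Fintype.card_fun, ← pow_mul]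
      simp
    rw [e1, e2]
    exact Nat.pow_lt_pow_right (by omega) hm)
  have main : ∀ I I' : Set (Fin m → Bool), (∀ x y, (G.Adj (v x) (g I (pt y)) ↔
      G.Adj (v x) (g I' (pt y)))) → ∀ i, i ∈ I → i ∉ I' → False := by
    intro I I' hpat i hi hi'
    let h : Set (Fin m → Bool) → (Fin r ⊕ τ) ⊕ ((Fin m ⊕ (β ⊕ Unit)) ⊕ (((Fin m → Bool) × β) ⊕
      ((Σ t : τ ⊕ (Fin m ⊕ (β ⊕ Unit)), Fin (p t)) ⊕ Unit))) → V := fun I =>
      Sum.elim (fun y => g I (pt y)) (Sum.elim v (fun b => F (Sum.inr b)))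
    have hyx : ∀ I y x, g I (pt y) ≠ v x := by
      intro I y x e
      have h1 : ∀ b, (colY y b ↔ pinR R0 p (Sum.inr x) b) := by
        intro b
        rw [← hgY I y b, e, hv]
      rcases y with i | t
      · exact (h1 (Sum.inr (Sum.inr ()))).1 trivial
      · have h2 := (h1 (Sum.inr (Sum.inl ⟨Sum.inl t, ⟨0, hp _⟩⟩))).1 rfl
        have h3 : (Sum.inl t : τ ⊕ (Fin m ⊕ (β ⊕ Unit))) = Sum.inr x := h2
        simp at h3
    have hyb : ∀ I y b, g I (pt y) ≠ F (Sum.inr b) := by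
      intro I y b e
      have h1 : ∀ b', ¬ colY y b' := by
        intro b' h2
        rw [← hgY I y b', e] at h2
        exact hFind _ _ h2
      rcases y with i | t
      · exact h1 (Sum.inr (Sum.inr ())) trivial
      · exact h1 (Sum.inr (Sum.inl ⟨Sum.inl t, ⟨0, hp _⟩⟩)) rfl
    have hxb : ∀ x b, v x ≠ F (Sum.inr b) := by
      intro x b e
      have h1 := (hv x (Sum.inr (Sum.inl ⟨Sum.inr x, ⟨0, hp _⟩⟩))).2 rfl
      rw [e] at h1
      exact hFind _ _ h1
    have hvinj : Function.Injective v := by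
      intro x x' e
      have h1 := (hv x (Sum.inr (Sum.inl ⟨Sum.inr x, ⟨0, hp _⟩⟩))).2 rfl
      rw [e, hv] at h1
      have h2 : (Sum.inr x : τ ⊕ (Fin m ⊕ (β ⊕ Unit))) = Sum.inr x' := h1
      exact Sum.inr.inj h2
    have hinj : ∀ I, Function.Injective (h I) := by
      rintro I (y | x | b) (y' | x' | b') e
      · rw [hptinj ((g I).injective e)]
      · exact absurd e (hyx I y x')
      · exact absurd e (hyb I y b')
      · exact absurd e.symm (hyx I y' x)
      · rw [hvinj e]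
      · exact absurd e (hxb x b')
      · exact absurd e.symm (hyb I y' b)
      · exact absurd e.symm (hxb x' b)
      · rw [hFinj e]
    have hadj : ∀ z z', (G.Adj (h I z) (h I z') ↔ G.Adj (h I' z) (h I' z')) := by
      rintro (y | x | b) (y' | x' | b')
      · exact ((g I).map_adj_iff).trans ((g I').map_adj_iff).symm
      · show G.Adj (g I (pt y)) (v x') ↔ G.Adj (g I' (pt y)) (v x')
        rw [G.adj_comm, G.adj_comm (g I' (pt y))]
        exact hpat x' y
      · exact (hgY I y b').trans (hgY I' y b').symm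
      · exact hpat x y'
      · exact Iff.rfl
      · exact Iff.rfl
      · show G.Adj (F (Sum.inr b)) (g I (pt y')) ↔ G.Adj (F (Sum.inr b)) (g I' (pt y'))
        rw [G.adj_comm, G.adj_comm (F (Sum.inr b))]
        exact (hgY I y' b).trans (hgY I' y' b).symm
      · exact Iff.rfl
      · exact Iff.rfl
    let kd : Fin r ⊕ ((τ ⊕ (Fin m ⊕ (β ⊕ Unit))) ⊕ (((Fin m → Bool) × β) ⊕
        ((Σ t : τ ⊕ (Fin m ⊕ (β ⊕ Unit)), Fin (p t)) ⊕ Unit))) →
        (Fin r ⊕ τ) ⊕ ((Fin m ⊕ (β ⊕ Unit)) ⊕ (((Fin m → Bool) × β) ⊕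
        ((Σ t : τ ⊕ (Fin m ⊕ (β ⊕ Unit)), Fin (p t)) ⊕ Unit))) := fun z => match z with
      | Sum.inl i => Sum.inl (Sum.inl i)
      | Sum.inr (Sum.inl (Sum.inl t)) => Sum.inl (Sum.inr t)
      | Sum.inr (Sum.inl (Sum.inr x)) => Sum.inr (Sum.inl x)
      | Sum.inr (Sum.inr b) => Sum.inr (Sum.inr b)
    have hkd : Function.Injective kd := by
      rintro (i | (t | x) | b) (i' | (t' | x') | b') e
      all_goals first
        | (simp only [kd, Sum.inl.injEq, Sum.inr.injEq] at e; subst e; rfl)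
        | (simp [kd] at e)
    obtain ⟨φ, κ, h3, h4, h5⟩ := conj_gen hB.sh (fun z => h I (kd z)) (fun z => h I' (kd z))
      (fun z z' e => hkd (hinj I e)) (fun z z' e => hkd (hinj I' e))
      (fun z z' => hadj _ _)
      (fun i i' hii => (g I').map_adj_iff.2 (hF.clq _ ((hWw _).2 ⟨i, rfl⟩) _
        ((hWw _).2 ⟨i', rfl⟩) (fun e => hii (hw e))))
      (fun i b => (hgY I' (Sum.inl i) b).2 trivial)
      (fun b b' => hFind b b') (by
        have : (fun (t : τ ⊕ (Fin m ⊕ (β ⊕ Unit))) b => G.Adj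
            (h I' (kd (Sum.inr (Sum.inl t)))) (h I' (kd (Sum.inr (Sum.inr b))))) =
            pinR R0 p := by
          funext t b
          rcases t with t | x
          · exact propext (hgY I' (Sum.inr t) b)
          · exact propext (hv x b)
        rw [this, Nat.card_fin]
        exact hstd')
    have h4v : ∀ x, φ (v x) = v x := fun x => h4 (Sum.inr x)
    have h4t : ∀ t, φ (g I (F (Sum.inl t))) = g I' (F (Sum.inl t)) := fun t => h4 (Sum.inl t)
    have h5' : ∀ b, φ (F (Sum.inr b)) = F (Sum.inr (κ b)) := fun b => h5 b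
    have hκR : ∀ x b, (pinR R0 p (Sum.inr x) (κ b) ↔ pinR R0 p (Sum.inr x) b) := by
      intro x b
      rw [← hv, ← hv, ← h5']
      conv_lhs => rw [← h4v x]
      exact φ.map_adj_iff
    have hκ : ∀ i j, κ (Sum.inl (i, j)) = Sum.inl (i, j) := by
      intro i j
      have e1 := hκR (Sum.inr (Sum.inr ())) (Sum.inl (i, j))
      have e2 := hκR (Sum.inr (Sum.inl j)) (Sum.inl (i, j))
      have e3 := fun s => hκR (Sum.inl s) (Sum.inl (i, j))
      rcases hb : κ (Sum.inl (i, j)) with ⟨i', j'⟩ | ⟨⟨t', n⟩ | u⟩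
      · rw [hb] at e2 e3
        have e4 : j' = j := e2.2 rfl
        have e5 : i' = i := by
          funext s
          have e6 : i' s = true ↔ i s = true := e3 s
          exact Bool.eq_iff_iff.2 e6
        rw [e4, e5]
      · exfalso
        rw [hb] at e1 e2
        have e4 : t' = Sum.inr (Sum.inr (Sum.inr ())) := e1.2 trivial
        have e5 : t' = Sum.inr (Sum.inr (Sum.inl j)) := e2.2 rfl
        rw [e4] at e5
        simp at e5
      · exfalso
        rw [hb] at e1
        exact e1.2 trivial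
    apply hP2 i
    refine ⟨(g I).trans (φ.trans (g I').symm), ?_, ?_, ?_⟩
    · apply image_eq_of_maps
      intro x hx
      obtain ⟨i0, rfl⟩ := (hWw x).1 hx
      obtain ⟨i1, hi1⟩ := h3 i0
      have e1 : φ (g I (w i0)) = g I' (w i1) := hi1
      show (g I').symm (φ (g I (w i0))) ∈ W1
      rw [e1, RelIso.symm_apply_apply]
      exact (hWw _).2 ⟨i1, rfl⟩
    · intro t
      show (g I').symm (φ (g I (F (Sum.inl t)))) = F (Sum.inl t)
      rw [h4t, RelIso.symm_apply_apply]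
    · intro j
      show (g I').symm (φ (g I (F (Sum.inr (Sum.inl (i, j)))))) =
        F (Sum.inr (Sum.inl (i, P i j)))
      have e1 : g I (F (Sum.inr (Sum.inl (i, j)))) = F (Sum.inr (Sum.inl (i, P i j))) := by
        rw [hg I (Sum.inl (i, j)), hPil]
        have : q I i = P i := if_pos hi
        rw [this]
      have e2 : g I' (F (Sum.inr (Sum.inl (i, P i j)))) = F (Sum.inr (Sum.inl (i, P i j))) := by
        rw [hg I' (Sum.inl (i, P i j)), hPil]
        have : q I' i = 1 := if_neg hi'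
        rw [this]
        rfl
      rw [e1, h5', hκ]
      conv_lhs => rw [← e2]
      rw [RelIso.symm_apply_apply]
  apply hII
  have hpat' : ∀ x y, (G.Adj (v x) (g I (pt y)) ↔ G.Adj (v x) (g I' (pt y))) := by
    intro x y
    have := congrFun (congrFun hpat x) y
    exact iff_of_eq this
  ext i
  constructor
  · intro hi
    by_contra hi'
    exact main I I' hpat' i hi hi'
  · intro hi
    by_contra hi'
    exact main I' I (fun x y => (hpat' x y).symm) i hi hi'

end Un
end SetHom
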