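import Pool.Agent.Helper83.U.H2
import Pool.Agent.Helper76.SH.Rigid

/-!
# MP_506470_co, module U-H1 : conjugacy of copies of finite graphs
-/

namespace SetHom
namespace Un

variable {V : Type} {G : SimpleGraph V}

/-- Two copies of a finite graph are conjugate up to an automorphism of the finite graph. -/
theorem sh_emb (hs : SetHomogeneous G) {δ : Type} [Finite δ] (f f' : δ → V)
    (hf : Function.Injective f) (hf' : Function.Injective f')
    (hadj : ∀ x y, G.Adj (f x) (f y) ↔ G.Adj (f' x) (f' y)) :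
    ∃ (φ : G ≃g G) (σ : Equiv.Perm δ), (∀ x, φ (f x) = f' (σ x)) ∧
      ∀ x y, (G.Adj (f' (σ x)) (f' (σ y)) ↔ G.Adj (f' x) (f' y)) := by
  let A : SimpleGraph δ := G.comap f'
  let e₁ : A ↪g G := ⟨⟨f, hf⟩, by intro a b; exact hadj a b⟩
  let e₂ : A ↪g G := ⟨⟨f', hf'⟩, by intro a b; exact Iff.rfl⟩
  obtain ⟨φ, α, h⟩ := emb_lemma hs e₁ e₂
  refine ⟨φ, α.toEquiv, h, ?_⟩
  intro x y
  exact α.map_adj_iff

/-- Enumeration of a finite set. -/
theorem exists_enum (W : Finset V) {r : ℕ} (h : W.card = r) :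
    ∃ w : Fin r → V, Function.Injective w ∧ ∀ x, x ∈ W ↔ ∃ i, w i = x := by
  let e : W ≃ Fin r := W.equivFinOfCardEq h
  refine ⟨fun i => (e.symm i).1, ?_, ?_⟩
  · intro i j hij
    exact e.symm.injective (Subtype.ext hij)
  · intro x
    constructor
    · intro hx
      exact ⟨e ⟨x, hx⟩, by simp⟩
    · rintro ⟨i, rfl⟩
      exact (e.symm i).2

/-- Full symmetry for injective families. -/
theorem fs_fam (hf : FS.FullSym G) {δ : Type} [Finite δ] (u : δ → V)
    (hu : Function.Injective u) (hi : ∀ x y, ¬ G.Adj (u x) (u y)) (π : Equiv.Perm δ) :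
    ∃ φ : G ≃g G, ∀ x, φ (u x) = u (π x) := by
  classical
  have _ := Fintype.ofFinite δ
  let l : List δ := Finset.univ.toList
  have hl : l.Nodup := Finset.nodup_toList _
  have hmem : ∀ x, x ∈ l := fun x => by simp [l]
  obtain ⟨φ, hφ⟩ := hf (l.map u) (l.map (fun x => u (π x))) (hl.map hu) (by
    intro x hx y hy
    obtain ⟨a, -, rfl⟩ := List.mem_map.1 hx
    obtain ⟨b, -, rfl⟩ := List.mem_map.1 hy
    exact hi a b) (by
    have h1 : (l.map π).Perm l := by
      rw [List.perm_ext_iff_of_nodup (hl.map π.injective) hl]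
      intro x
      constructor
      · intro _
        exact hmem x
      · intro _
        exact List.mem_map.2 ⟨π.symm x, hmem _, by simp⟩
    have h2 := h1.map u
    rw [List.map_map] at h2
    exact h2)
  refine ⟨φ, ?_⟩
  intro x
  rw [List.map_map, List.map_inj_left] at hφ
  exact hφ x (hmem x)

/-- An injective map of a finite set into itself is onto. -/
theorem image_eq_of_maps (ψ : G ≃g G) (W : Finset V) (h : ∀ x ∈ W, ψ x ∈ W) :
    ψ '' (W : Set V) = W := by
  classical
  have h1 : W.map ψ.toEquiv.toEmbedding ⊆ W := by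
    intro x hx
    obtain ⟨y, hy, rfl⟩ := Finset.mem_map.1 hx
    exact h y hy
  have h2 : W.map ψ.toEquiv.toEmbedding = W :=
    Finset.eq_of_subset_of_card_le h1 (by rw [Finset.card_map])
  ext x
  constructor
  · rintro ⟨y, hy, rfl⟩
    exact h y hy
  · intro hx
    rw [Finset.mem_coe, ← h2] at hx
    obtain ⟨y, hy, rfl⟩ := Finset.mem_map.1 hx
    exact ⟨y, hy, rfl⟩

end Un
end SetHom
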